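import Pool.Agent.H.MP_02e21a_al.K

set_option autoImplicit false

namespace Pool.Agent.H.MP_89edc2_al

open Equiv Pool.Agent.H.MP_02e21a_al

abbrev K4 := Bool × Bool

def km (x y : K4) : K4 := (xor x.1 y.1, xor x.2 y.2)
def sh (x : K4) : K4 := (xor x.1 x.2, x.1)

def actA : Ad → Ad
  | [] => []
  | x :: y => (!x) :: y

def actK : K4 → Ad → Ad
  | _, [] => []
  | β, false :: y => false :: (if β.1 then actA y else y)
  | β, true :: y => true :: actK (sh β) y

@[simp] lemma actA_actA (y : Ad) : actA (actA y) = y := by cases y <;> simp [actA]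

lemma actK_km (y : Ad) : ∀ β γ : K4, actK (km β γ) y = actK β (actK γ y) := by
  induction y with
  | nil => intros; rfl
  | cons x y ih =>
    rintro ⟨b1, b2⟩ ⟨c1, c2⟩
    cases x
    · cases b1 <;> cases c1 <;> simp [actK, km]
    · simp only [actK]
      rw [← ih]
      congr 2
      cases b1 <;> cases b2 <;> cases c1 <;> cases c2 <;> rfl

@[simp] lemma actK_one (y : Ad) : actK (false, false) y = y := by
  induction y with
  | nil => rfl
  | cons x y ih => cases x <;> simp [actK, sh, ih]

@[simp] lemma actK_actK (β : K4) (y : Ad) : actK β (actK β y) = y := by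
  rw [← actK_km]; simp [km]

@[simp] lemma len_actA (y : Ad) : (actA y).length = y.length := by cases y <;> simp [actA]

@[simp] lemma len_actK (y : Ad) : ∀ β, (actK β y).length = y.length := by
  induction y with
  | nil => intro; rfl
  | cons x y ih =>
    intro β
    cases x
    · simp only [actK]; split_ifs <;> simp
    · simp [actK, ih]

lemma mem_imA {X : Set Ad} {y : Ad} : y ∈ actA '' X ↔ actA y ∈ X :=
  ⟨by rintro ⟨x, hx, rfl⟩; simpa using hx, fun h => ⟨_, h, by simp⟩⟩

lemma mem_imK {β : K4} {X : Set Ad} {y : Ad} : y ∈ actK β '' X ↔ actK β y ∈ X :=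
  ⟨by rintro ⟨x, hx, rfl⟩; simpa using hx, fun h => ⟨_, h, by simp⟩⟩

lemma cz_actA (y : Ad) : (actA y).count false ≤ y.count false + 1 ∧
    y.count false ≤ (actA y).count false + 1 := by
  cases y with
  | nil => simp [actA]
  | cons x y => cases x <;> simp [actA] <;> omega

lemma cz_actK (y : Ad) : ∀ β, (actK β y).count false ≤ y.count false + 1 ∧
    y.count false ≤ (actK β y).count false + 1 := by
  induction y with
  | nil => simp [actK]
  | cons x y ih =>
    intro β
    cases x
    · simp only [actK]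
      split_ifs
      · have := cz_actA y
        simp; omega
      · simp
    · simpa [actK] using ih (sh β)

variable {ι : Type} [DecidableEq ι]

abbrev Syl (ι : Type) := K4 × Finset ι
abbrev Wr (ι : Type) := Syl ι × List (Syl ι)

def evL : List (Syl ι) → Ad → Ad
  | [], y => y
  | s :: l, y => actA (actK s.1 (evL l y))

def ev (w : Wr ι) (y : Ad) : Ad := actK w.1.1 (evL w.2 y)

def ZU (Z : ι → Set Ad) (U : Finset ι) (i : ι) : Set Ad := {y | i ∈ U ∧ y ∈ Z i}

def OL (Z : ι → Set Ad) : List (Syl ι) → ι → Set Ad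
  | [], _ => ∅
  | s :: l, i => actA '' (actK s.1 '' OL Z l i ∪ ZU Z s.2 i)

def Or (Z : ι → Set Ad) (w : Wr ι) (i : ι) : Set Ad := actK w.1.1 '' OL Z w.2 i ∪ ZU Z w.1.2 i

def w1 : Wr ι := (((false, false), ∅), [])
def pushA (w : Wr ι) : Wr ι := (((false, false), ∅), w.1 :: w.2)
def mulS (s : Syl ι) (w : Wr ι) : Wr ι := ((km s.1 w.1.1, s.2 ∪ w.1.2), w.2)

def Inv (Z : ι → Set Ad) : Prop := ∀ β i y, y ∈ Z i → actK β y ∈ Z i

omit [DecidableEq ι] in
lemma ev_w1 (y : Ad) : ev (w1 : Wr ι) y = y := by simp [ev, w1, evL]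

omit [DecidableEq ι] in
lemma or_w1 (Z : ι → Set Ad) (i : ι) : Or Z w1 i = ∅ := by simp [Or, w1, OL, ZU]

omit [DecidableEq ι] in
lemma ev_pushA (w : Wr ι) (y : Ad) : ev (pushA w) y = actA (ev w y) := by simp [ev, pushA, evL]

omit [DecidableEq ι] in
lemma or_pushA (Z : ι → Set Ad) (w : Wr ι) (i : ι) : Or Z (pushA w) i = actA '' Or Z w i := by
  ext y; simp [Or, pushA, OL, ZU, mem_imK]

lemma ev_mulS (s : Syl ι) (w : Wr ι) (y : Ad) : ev (mulS s w) y = actK s.1 (ev w y) := by
  simp [ev, mulS, actK_km]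

lemma or_mulS {Z : ι → Set Ad} (hZ : Inv Z) (s : Syl ι) (w : Wr ι) (i : ι) :
    Or Z (mulS s w) i = actK s.1 '' Or Z w i ∪ ZU Z s.2 i := by
  ext y
  have e : km s.1 w.1.1 = km w.1.1 s.1 := by simp [km, Bool.xor_comm]
  have h : actK s.1 y ∈ Z i ↔ y ∈ Z i := ⟨fun h => by simpa using hZ s.1 i _ h, hZ s.1 i y⟩
  have h2 : actK (km w.1.1 s.1) y = actK w.1.1 (actK s.1 y) := actK_km _ _ _
  simp only [Or, mulS, Set.mem_union, mem_imK, ZU, Set.mem_setOf_eq, Finset.mem_union, e, h2, h]
  tauto

def app1 (s : Syl ι) (j : Bool) (w : Wr ι) : Wr ι :=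
  if j then mulS (sh s.1, s.2) w else if s.1.1 then pushA w else w

def secL : List (Syl ι) → Bool → Wr ι
  | [], _ => w1
  | s :: l, j => app1 s (!j) (secL l (!j))

def sec (w : Wr ι) (j : Bool) : Wr ι := app1 w.1 j (secL w.2 j)

def par {α : Type} : List α → Bool
  | [] => false
  | _ :: l => !par l

lemma app1_ev (s : Syl ι) (j : Bool) (w : Wr ι) (y : Ad) :
    actK s.1 (j :: ev w y) = j :: ev (app1 s j w) y := by
  cases j
  · simp only [actK, app1, Bool.false_eq_true, if_false]
    split_ifs <;> simp [ev_pushA]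
  · simp [actK, app1, ev_mulS]

lemma secL_ev (l : List (Syl ι)) : ∀ (j : Bool) (y : Ad),
    evL l (xor j (par l) :: y) = j :: ev (secL l j) y := by
  induction l with
  | nil => intro j y; simp [evL, par, secL, ev_w1]
  | cons s l ih =>
    intro j y
    have e : xor j (par (s :: l)) = xor (!j) (par l) := by simp [par]
    rw [e, evL, ih, app1_ev, actA, secL, Bool.not_not]

lemma sec_ev (w : Wr ι) (j : Bool) (y : Ad) :
    ev w (xor j (par w.2) :: y) = j :: ev (sec w j) y := by
  rw [ev, secL_ev, app1_ev, sec]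

omit [DecidableEq ι] in
lemma ev_nil (w : Wr ι) : ev w [] = [] := by
  have : ∀ l : List (Syl ι), evL l [] = [] := fun l => by
    induction l with
    | nil => rfl
    | cons s l ih => simp [evL, ih, actK, actA]
  simp [ev, this, actK]

def up (Z : ι → Set Ad) (i : ι) : Set Ad := (true :: ·) '' Z i

lemma app1_or {Z : ι → Set Ad} (hZ : Inv Z) (s : Syl ι) (j : Bool) (w : Wr ι) (i : ι) {X : Set Ad}
    (h : ∀ y, j :: y ∈ X ↔ y ∈ Or Z w i) (y : Ad) :
    j :: y ∈ actK s.1 '' X ∪ ZU (up Z) s.2 i ↔ y ∈ Or Z (app1 s j w) i := by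
  cases j
  · simp only [Set.mem_union, mem_imK, actK, h, app1, Bool.false_eq_true, if_false]
    have : false :: y ∉ ZU (up Z) s.2 i := by simp [ZU, up]
    split_ifs <;> simp only [this, or_pushA, mem_imA, or_false]
  · simp only [Set.mem_union, mem_imK, actK, h, app1, if_true, or_mulS hZ]
    simp [ZU, up]

lemma secL_or {Z : ι → Set Ad} (hZ : Inv Z) (i : ι) (l : List (Syl ι)) : ∀ (j : Bool) (y : Ad),
    j :: y ∈ OL (up Z) l i ↔ y ∈ Or Z (secL l j) i := by
  induction l with
  | nil => intro j y; simp [OL, secL, or_w1]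
  | cons s l ih =>
    intro j y
    rw [OL, mem_imA, actA, secL]
    exact app1_or hZ s (!j) _ i (ih (!j)) y

lemma sec_or {Z : ι → Set Ad} (hZ : Inv Z) (i : ι) (w : Wr ι) (j : Bool) (y : Ad) :
    j :: y ∈ Or (up Z) w i ↔ y ∈ Or Z (sec w j) i :=
  app1_or hZ w.1 j _ i (secL_or hZ i w.2 j) y

omit [DecidableEq ι] in
lemma nil_or (Z : ι → Set Ad) (i : ι) (w : Wr ι) : [] ∉ Or (up Z) w i := by
  have : ∀ l : List (Syl ι), [] ∉ OL (up Z) l i := fun l => by
    induction l with
    | nil => simp [OL]
    | cons s l ih =>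
      rw [OL, mem_imA]
      simp only [actA, Set.mem_union, mem_imK, actK, ih]
      simp [ZU, up]
  simp only [Or, mem_imK, actK, this, Set.mem_union]
  simp [ZU, up]

def wt (β : K4) : ℕ := if β.1 then (if β.2 then 4 else 6) else if β.2 then 2 else 0

def nmL (l : List (Syl ι)) : ℕ := (l.map fun s => 5 + wt s.1).sum
def nm (w : Wr ι) : ℕ := wt w.1.1 + nmL w.2

lemma wt_km (β γ : K4) : wt (km β γ) ≤ wt β + wt γ := by
  rcases β with ⟨b1, b2⟩; rcases γ with ⟨c1, c2⟩
  cases b1 <;> cases b2 <;> cases c1 <;> cases c2 <;> simp [wt, km]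

omit [DecidableEq ι] in
lemma nm_pushA (w : Wr ι) : nm (pushA w) = 5 + nm w := by simp [nm, pushA, nmL, wt]; ring

lemma nm_mulS (s : Syl ι) (w : Wr ι) : nm (mulS s w) ≤ wt s.1 + nm w := by
  have := wt_km s.1 w.1.1
  simp only [nm, mulS]; omega

lemma nm_app1 (s : Syl ι) (w w' : Wr ι) :
    7 * (nm (app1 s false w) + nm (app1 s true w')) ≤ 6 * (5 + wt s.1) + 7 * (nm w + nm w') := by
  have h := nm_mulS (sh s.1, s.2) w'
  have h' := nm_pushA w
  rcases s with ⟨⟨b1, b2⟩, U⟩
  cases b1 <;> cases b2 <;> simp [app1, wt, sh] at h ⊢ <;> omega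

lemma nm_secL (l : List (Syl ι)) : 7 * (nm (secL l false) + nm (secL l true)) ≤ 6 * nmL l := by
  induction l with
  | nil => simp [secL, nm, w1, nmL, wt]
  | cons s l ih =>
    have := nm_app1 s (secL l false) (secL l true)
    simp only [secL, Bool.not_false, Bool.not_true, nmL, List.map_cons, List.sum_cons] at *
    omega

lemma nm_sec (w : Wr ι) : 7 * (nm (sec w false) + nm (sec w true)) ≤ 6 * nm w + 30 := by
  have := nm_app1 w.1 (secL w.2 false) (secL w.2 true)
  have := nm_secL w.2
  simp only [sec, nm] at *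
  omega

def enc : ℕ → Wr ι → List (Syl ι × Bool)
  | 0, w => w.2.map (·, false) ++ [(w.1, true)]
  | m + 1, w => (((false, false), ∅), par w.2) :: (enc m (sec w false) ++ enc m (sec w true))

lemma enc_len (m : ℕ) : ∀ w : Wr ι, 7 ^ m * (enc m w).length ≤ 6 ^ m * nm w + 37 * 15 ^ m := by
  induction m with
  | zero =>
    intro w
    have : ∀ l : List (Syl ι), l.length ≤ nmL l := fun l => by
      induction l with
      | nil => simp
      | cons s l ih => simp only [nmL, List.map_cons, List.sum_cons, List.length_cons] at *; omega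
    have := this w.2
    simp [enc, nm]; omega
  | succ m ih =>
    intro w
    have h0 := ih (sec w false)
    have h1 := ih (sec w true)
    have h2 := Nat.mul_le_mul_left (6 ^ m) (nm_sec w)
    have a1 : 7 ^ m ≤ 15 ^ m := Nat.pow_le_pow_left (by omega) m
    have a2 : 6 ^ m ≤ 15 ^ m := Nat.pow_le_pow_left (by omega) m
    simp only [enc, List.length_cons, List.length_append, pow_succ]
    nlinarith

def Zs (z : ι → Ad) (m : ℕ) (i : ι) : Set Ad :=
  {y | ∃ j, y = List.replicate m true ++ false :: j :: z i}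

omit [DecidableEq ι] in
lemma Zs_succ (z : ι → Ad) (m : ℕ) : Zs z (m + 1) = up (Zs z m) := by
  funext i
  ext y
  simp only [Zs, up, Set.mem_setOf_eq, Set.mem_image, List.replicate_succ, List.cons_append]
  constructor
  · rintro ⟨j, rfl⟩; exact ⟨_, ⟨j, rfl⟩, rfl⟩
  · rintro ⟨_, ⟨j, rfl⟩, rfl⟩; exact ⟨j, rfl⟩

omit [DecidableEq ι] in
lemma Zs_inv (z : ι → Ad) (m : ℕ) : Inv (Zs z m) := by
  induction m with
  | zero =>
    rintro β i _ ⟨j, rfl⟩
    simp only [List.replicate_zero, List.nil_append, actK]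
    split_ifs
    · exact ⟨!j, rfl⟩
    · exact ⟨j, rfl⟩
  | succ m ih =>
    rw [Zs_succ]
    rintro β i _ ⟨y, hy, rfl⟩
    exact ⟨_, ih (sh β) i y hy, rfl⟩

def Same (Z : ι → Set Ad) (w w' : Wr ι) : Prop :=
  (∀ y, ev w y = ev w' y) ∧ ∀ i, Or Z w i = Or Z w' i

lemma enc_inj (z : ι → Ad) (m : ℕ) : ∀ (w w' : Wr ι) (t t' : List (Syl ι × Bool)),
    enc m w ++ t = enc m w' ++ t' → Same (Zs z m) w w' ∧ t = t' := by
  induction m with
  | zero =>
    have : ∀ (l l' : List (Syl ι)) (s s' : Syl ι) (t t' : List (Syl ι × Bool)),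
        l.map (·, false) ++ (s, true) :: t = l'.map (·, false) ++ (s', true) :: t' →
          l = l' ∧ s = s' ∧ t = t' := by
      intro l
      induction l with
      | nil => intro l' s s' t t' h; cases l' <;> simp_all
      | cons a l ih =>
        intro l' s s' t t' h
        cases l' with
        | nil => simp at h
        | cons a' l' =>
          simp only [List.map_cons, List.cons_append, List.cons.injEq, Prod.mk.injEq, and_true] at h
          obtain ⟨h1, h2, h3⟩ := ih l' s s' t t' h.2
          simp [h.1, h1, h2, h3]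
    intro w w' t t' h
    obtain ⟨h1, h2, h3⟩ := this w.2 w'.2 w.1 w'.1 t t' (by simpa [enc] using h)
    have : w = w' := Prod.ext h2 h1
    exact ⟨this ▸ ⟨fun _ => rfl, fun _ => rfl⟩, h3⟩
  | succ m ih =>
    intro w w' t t' h
    simp only [enc, List.cons_append, List.cons.injEq, Prod.mk.injEq, true_and,
      List.append_assoc] at h
    obtain ⟨s0, h0⟩ := ih _ _ _ _ h.2
    obtain ⟨s1, h1⟩ := ih _ _ _ _ h0
    have s : ∀ j, Same (Zs z m) (sec w j) (sec w' j) := fun j => by cases j <;> assumption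
    refine ⟨⟨fun y => ?_, fun i => ?_⟩, h1⟩
    · cases y with
      | nil => rw [ev_nil, ev_nil]
      | cons x y =>
        have e : x = xor (xor x (par w.2)) (par w.2) := by simp
        rw [e, sec_ev, h.1, sec_ev, (s _).1]
    · rw [Zs_succ]
      ext y
      cases y with
      | nil => simp [nil_or]
      | cons x y => rw [sec_or (Zs_inv z m), sec_or (Zs_inv z m), (s x).2]

lemma or_card (z : ι → Ad) (i : ι) (m : ℕ) : ∀ w : Wr ι,
    (Or (Zs z m) w i).encard ≤ (2 * (enc m w).length : ℕ) := by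
  induction m with
  | zero =>
    have hZ : ∀ U, (ZU (Zs z 0) U i).encard ≤ 2 := fun U => by
      have : ZU (Zs z 0) U i ⊆ {false :: false :: z i, false :: true :: z i} := by
        rintro _ ⟨_, j, rfl⟩
        cases j <;> simp
      refine (Set.encard_le_encard this).trans ((Set.encard_insert_le _ _).trans ?_)
      simp; norm_num
    have : ∀ l : List (Syl ι), (OL (Zs z 0) l i).encard ≤ (2 * l.length : ℕ) := fun l => by
      induction l with
      | nil => simp [OL]
      | cons s l ih =>
        refine (Set.encard_image_le _ _).trans ((Set.encard_union_le _ _).trans ?_)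
        refine (add_le_add ((Set.encard_image_le _ _).trans ih) (hZ _)).trans ?_
        simp only [List.length_cons]; push_cast; ring_nf; rfl
    intro w
    refine (Set.encard_union_le _ _).trans ?_
    refine (add_le_add ((Set.encard_image_le _ _).trans (this _)) (hZ _)).trans ?_
    simp only [enc, List.length_append, List.length_map, List.length_singleton]
    push_cast; ring_nf; rfl
  | succ m ih =>
    intro w
    have : Or (Zs z (m + 1)) w i ⊆ (false :: ·) '' Or (Zs z m) (sec w false) i ∪
        (true :: ·) '' Or (Zs z m) (sec w true) i := by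
      rw [Zs_succ]
      intro y hy
      cases y with
      | nil => exact absurd hy (nil_or _ _ _)
      | cons x y =>
        rw [sec_or (Zs_inv z m)] at hy
        cases x
        · exact Or.inl ⟨y, hy, rfl⟩
        · exact Or.inr ⟨y, hy, rfl⟩
    refine (Set.encard_le_encard this).trans ((Set.encard_union_le _ _).trans ?_)
    refine (add_le_add ((Set.encard_image_le _ _).trans (ih _))
      ((Set.encard_image_le _ _).trans (ih _))).trans ?_
    simp only [enc, List.length_cons, List.length_append]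
    norm_cast; omega

end Pool.Agent.H.MP_89edc2_al
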