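import Pool.Agent.H.MP_89edc2_al.A

set_option autoImplicit false

namespace Pool.Agent.H.MP_89edc2_al

open Equiv Pool.Agent.H.MP_02e21a_al

abbrev V : Subgroup (Perm ℤ) := Subgroup.closure (CTs ∅)

lemma MM : MI (fun _ => False) (MonoidHom.id (Perm ℤ)) tau gam := mi_perm fun _ h => h.elim

lemma dj_len {a b : Ad} (h : a.length = b.length) (hne : a ≠ b) : Dj a b := by
  by_contra c
  obtain ⟨u, rfl⟩ := cmp_len c h.le
  have : u = [] := by
    rw [List.length_append] at h
    exact List.length_eq_zero_iff.1 (by omega)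
  exact hne (by simp [this])

lemma lev_ext {n : ℕ} {σ ρ : Perm ℤ} {f : Ad → Ad} (h : ∀ v : Ad, v.length = n → Mp σ v (f v))
    (h' : ∀ v : Ad, v.length = n → Mp ρ v (f v)) : σ = ρ := by
  ext k
  obtain ⟨u, hu, l, rfl⟩ := cone_deep n k
  rw [h u hu, h' u hu]

lemma ex_lev (n : ℕ) (f : Ad → Ad) (hf : ∀ v, f (f v) = v) (hl : ∀ v, (f v).length = v.length) :
    ∃ σ : Perm ℤ, σ ∈ V ∧ σ⁻¹ = σ ∧ ∀ v : Ad, v.length = n → Mp σ v (f v) := by
  choose u hu l hk using cone_deep n
  let F : ℤ → ℤ := fun k => cone (f (u k)) (l k)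
  have hF : ∀ v : Ad, v.length = n → ∀ k, F (cone v k) = cone (f v) k := by
    intro v hv k
    have e := hk (cone v k)
    have e1 : v = u (cone v k) := by
      by_contra c
      exact dj_len (hv.trans (hu _).symm) c _ _ e
    rw [← e1] at e
    simp only [F]
    rw [← e1, ← cone_inj v e]
  have hi : Function.Involutive F := by
    intro k
    obtain ⟨v, hv, j, rfl⟩ := cone_deep n k
    rw [hF v hv, hF _ (by rw [hl, hv]), hf]
  have hm : ∀ v : Ad, v.length = n → Mp (hi.toPerm F) v (f v) := fun v hv k => hF v hv k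
  obtain ⟨w, hw, e⟩ := vfull MM (σ := hi.toPerm F) (d := n) fun a ha => ⟨_, hm a ha⟩
  refine ⟨hi.toPerm F, ?_, rfl, hm⟩
  rw [← e]
  exact wd_mem hw

lemma tau_conj {g : Perm ℤ} {a b a' b' : Ad} (d : Dj a b) (ha : Mp g a a') (hb : Mp g b b') :
    g * tau a b * g⁻¹ = tau a' b' :=
  IsSw.uniq ((tau_ts d).conj ha hb) (tau_ts (ha.dj hb d))

lemma dj_unpre {c a b : Ad} (h : Dj (c ++ a) (c ++ b)) : Dj a b := fun k l e =>
  h k l (by rw [cone_append, cone_append, e])

lemma emb_tau (y : Ad) {a b : Ad} (d : Dj a b) :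
    Perm.viaEmbeddingHom ⟨cone y, cone_inj y⟩ (tau a b) = tau (y ++ a) (y ++ b) := by
  refine IsSw.uniq ?_ (tau_ts (d.pre y))
  have ap : ∀ k, Perm.viaEmbeddingHom ⟨cone y, cone_inj y⟩ (tau a b) (cone y k) =
      cone y (tau a b k) := fun k => Perm.viaEmbedding_apply (tau a b) ⟨cone y, cone_inj y⟩ k
  refine ⟨fun k => ?_, fun k => ?_, fun n h1 h2 => ?_⟩
  · rw [cone_append, ap, (tau_ts d).1, cone_append]
  · rw [cone_append, ap, (tau_ts d).2.1, cone_append]
  · by_cases c : ∃ k, n = cone y k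
    · obtain ⟨k, rfl⟩ := c
      rw [ap, (tau_ts d).2.2 k]
      · intro j e; exact h1 j (by rw [cone_append, e])
      · intro j e; exact h2 j (by rw [cone_append, e])
    · exact Perm.viaEmbedding_apply_of_notMem _ ⟨cone y, cone_inj y⟩ n (fun ⟨k, hk⟩ => c ⟨k, hk.symm⟩)

lemma short_gen (H : Subgroup (Perm ℤ)) (h : ∀ a b : SA, Dj a.1 b.1 → tau a.1 b.1 ∈ H) : V ≤ H := by
  have := (main_aux (P := ∅) (by simp) FreeGroup.of (FreeGroup.closure_range_of _)
    (FreeGroup.lift (val ∅)) (fun i => FreeGroup.lift_apply_of)).1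
  rw [V, ← this, FreeGroup.range_lift_eq_closure, Subgroup.closure_le]
  rintro _ ⟨i, rfl⟩
  rcases i with ⟨a, b⟩ | ⟨p, a⟩
  · by_cases d : Dj a.1 b.1
    · exact h a b d
    · simp only [val, tau, dif_neg d]; exact one_mem _
  · exact absurd p.2 (Finset.notMem_empty _)

lemma loc_gen (H : Subgroup (Perm ℤ)) (y : Ad)
    (h : ∀ a b : SA, Dj a.1 b.1 → tau (y ++ a.1) (y ++ b.1) ∈ H) {a b : Ad} (d : Dj a b) :
    tau (y ++ a) (y ++ b) ∈ H := by
  have := short_gen (H.comap (Perm.viaEmbeddingHom ⟨cone y, cone_inj y⟩)) fun a b d => by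
    rw [Subgroup.mem_comap, emb_tau y d]; exact h a b d
  have := this (tau_mem a b)
  rwa [Subgroup.mem_comap, emb_tau y d] at this

lemma sh_surj (β : K4) : ∃ γ, sh γ = β := by
  rcases β with ⟨b1, b2⟩
  exact ⟨(b2, xor b1 b2), by cases b1 <;> cases b2 <;> rfl⟩

lemma lev_trans (n : ℕ) : ∀ (P : Ad → Prop), (∀ y : Ad, y.length = n → P y → P (actA y)) →
    (∀ β (y : Ad), y.length = n → P y → P (actK β y)) → ∀ y0 : Ad, y0.length = n → P y0 →
      ∀ y : Ad, y.length = n → P y := by
  induction n with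
  | zero =>
    intro P _ _ y0 h0 hp y hy
    rw [List.length_eq_zero_iff] at h0 hy
    rw [hy, ← h0]; exact hp
  | succ n ih =>
    intro P hA hK y0 h0 hp
    have k0 : ∀ v : Ad, v.length = n → P (false :: v) := by
      obtain ⟨v0, hv0, pv⟩ : ∃ v0 : Ad, v0.length = n ∧ P (false :: v0) := by
        rcases y0 with _ | ⟨_ | _, v⟩
        · simp at h0
        · exact ⟨v, by simpa using h0, hp⟩
        · exact ⟨v, by simpa using h0, hA _ h0 hp⟩
      refine ih (fun v => P (false :: v)) (fun v hv h => ?_) (fun β v hv h => ?_) v0 hv0 pv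
      · exact hK (true, false) _ (by simp [hv]) h
      · obtain ⟨γ, rfl⟩ := sh_surj β
        exact hA (true :: _) (by simp [hv]) (hK γ (true :: v) (by simp [hv])
          (hA (false :: v) (by simp [hv]) h))
    intro y hy
    rcases y with _ | ⟨_ | _, v⟩
    · simp at hy
    · exact k0 v (by simpa using hy)
    · exact hA (false :: v) hy (k0 v (by simpa using hy))

lemma actK_rep (n : ℕ) : ∀ β, actK β (List.replicate n true) = List.replicate n true := by
  induction n with
  | zero => intro; rfl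
  | succ n ih => intro β; rw [List.replicate_succ, actK, ih]

lemma actK_cons (β : K4) (x : Bool) (y : Ad) : ∃ y' : Ad, actK β (x :: y) = x :: y' := by
  cases x <;> exact ⟨_, rfl⟩

lemma lev_total (n : ℕ) : ∀ (R : Ad → Ad → Prop), (∀ y : Ad, R y y) →
    (∀ y y', R y y' → R y' y) →
    (∀ x y z : Ad, x.length = n + 1 → y.length = n + 1 → z.length = n + 1 → R x y → R y z → R x z) →
    (∀ y y' : Ad, y.length = n + 1 → y'.length = n + 1 → R y y' → R (actA y) (actA y')) →
    (∀ β (y y' : Ad), y.length = n + 1 → y'.length = n + 1 → R y y' → R (actK β y) (actK β y')) →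
    ∀ (j : Bool) (u u' : Ad), u.length = n → u'.length = n → R (j :: u) ((!j) :: u') →
      ∀ y y' : Ad, y.length = n + 1 → y'.length = n + 1 → R y y' := by
  induction n with
  | zero =>
    intro R hr hs _ _ _ j u u' hu hu' h y y' hy hy'
    rw [List.length_eq_zero_iff] at hu hu'
    subst hu hu'
    obtain ⟨x, rfl⟩ := List.length_eq_one_iff.1 hy
    obtain ⟨x', rfl⟩ := List.length_eq_one_iff.1 hy'
    cases j <;> cases x <;> cases x' <;> first | exact hr _ | exact h | exact hs _ _ h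
  | succ n ih =>
    intro R hr hs ht hA hK j u u' hu hu' h
    have k1 := lev_trans (n + 2) (fun y => ∃ (x : Bool) (v v' : Ad), y = x :: v ∧
      v'.length = n + 1 ∧ R y ((!x) :: v')) ?_ ?_ (j :: u) (by simp [hu]) ⟨j, u, u', rfl, hu', h⟩
      (List.replicate (n + 2) true) (by simp)
    · obtain ⟨x, v, w, e, hw, h1⟩ := k1
      have ex : x = true := by
        rw [List.replicate_succ] at e
        exact (List.cons.inj e).1.symm
      subst ex
      have h2 := hK (true, false) _ _ (by simp) (by simp [hw]) h1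
      rw [actK_rep] at h2
      have h3 : R (false :: w) (false :: actA w) :=
        ht _ _ _ (by simp [hw]) (by simp) (by simp [hw]) (hs _ _ h1) h2
      rcases w with _ | ⟨i, w⟩
      · simp at hw
      have hw' : w.length = n := by simpa using hw
      have k0 := ih (fun v v' => R (false :: v) (false :: v')) (fun _ => hr _) (fun _ _ => hs _ _)
        (fun x y z hx hy hz => ht _ _ _ (by simp [hx]) (by simp [hy]) (by simp [hz]))
        (fun y y' hy hy' h => hK (true, false) _ _ (by simp [hy]) (by simp [hy']) h)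
        (fun β y y' hy hy' h => by
          obtain ⟨γ, rfl⟩ := sh_surj β
          exact hA (true :: _) (true :: _) (by simp [hy]) (by simp [hy'])
            (hK γ (true :: y) (true :: y') (by simp [hy]) (by simp [hy'])
              (hA (false :: y) (false :: y') (by simp [hy]) (by simp [hy']) h)))
        i w w hw' hw' h3
      have k2 : ∀ v v' : Ad, v.length = n + 1 → v'.length = n + 1 → R (true :: v) (true :: v') :=
        fun v v' hv hv' => hA (false :: v) (false :: v') (by simp [hv]) (by simp [hv']) (k0 v v' hv hv')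
      have k3 : ∀ v v' : Ad, v.length = n + 1 → v'.length = n + 1 → R (true :: v) (false :: v') := by
        intro v v' hv hv'
        refine ht _ _ _ (by simp [hv]) (by simp) (by simp [hv']) ?_
          (ht _ _ _ (by simp) (by simp [hw']) (by simp [hv']) h1 (k0 _ _ hw hv'))
        rw [List.replicate_succ]
        exact k2 _ _ hv (by simp)
      intro y y' hy hy'
      rcases y with _ | ⟨x, v⟩
      · simp at hy
      rcases y' with _ | ⟨x', v'⟩
      · simp at hy'
      have hv : v.length = n + 1 := by simpa using hy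
      have hv' : v'.length = n + 1 := by simpa using hy'
      cases x <;> cases x'
      · exact k0 v v' hv hv'
      · exact hs _ _ (k3 _ _ hv' hv)
      · exact k3 _ _ hv hv'
      · exact k2 _ _ hv hv'
    · rintro _ hy ⟨x, v, v', rfl, hv', h⟩
      exact ⟨!x, v, v', rfl, hv', hA _ _ hy (by simp [hv']) h⟩
    · rintro β _ hy ⟨x, v, v', rfl, hv', h⟩
      obtain ⟨a, ha⟩ := actK_cons β x v
      obtain ⟨b, hb⟩ := actK_cons β (!x) v'
      have hl := len_actK ((!x) :: v') β
      rw [hb] at hl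
      refine ⟨x, a, b, ha, by simpa [hv'] using hl, ?_⟩
      rw [← hb]
      exact hK β _ _ hy (by simp [hv']) h

lemma tau_tri (H : Subgroup (Perm ℤ)) {a b c : Ad} (ab : Dj a b) (ac : Dj a c) (bc : Dj b c)
    (h1 : tau a b ∈ H) (h2 : tau b c ∈ H) : tau a c ∈ H := by
  rw [← MM.tri ab ac bc]
  exact mul_mem (mul_mem h1 h2) h1

lemma tau_sym (H : Subgroup (Perm ℤ)) {a b : Ad} (ab : Dj a b) (h : tau a b ∈ H) : tau b a ∈ H := by
  rwa [← MM.sym ab]

lemma half (H : Subgroup (Perm ℤ)) {y q : Ad} (d : Dj y q)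
    (hy : ∀ a b, Dj a b → tau (y ++ a) (y ++ b) ∈ H) (h : tau (y ++ [false]) q ∈ H) {a : Ad}
    (ha : a ≠ []) : tau (y ++ a) q ∈ H := by
  have k : ∀ a b, Dj a b → tau (y ++ b) q ∈ H → tau (y ++ a) q ∈ H := fun a b ab h =>
    tau_tri H (ab.pre y) (d.appl _) (d.appl _) (hy a b ab) h
  have k1 : ∀ u, tau (y ++ true :: u) q ∈ H := fun u => k _ _ (dj_bool (by simp) _ _) h
  rcases a with _ | ⟨_ | _, u⟩
  · exact absurd rfl ha
  · exact k _ _ (dj_bool (by simp) _ _) (k1 [])
  · exact k1 u

theorem gen_all (H : Subgroup (Perm ℤ)) (n : ℕ) (A : Perm ℤ) (B : K4 → Perm ℤ) (hA : A ∈ H)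
    (hB : ∀ β, B β ∈ H) (mA : ∀ v : Ad, v.length = n + 1 → Mp A v (actA v))
    (mB : ∀ β (v : Ad), v.length = n + 1 → Mp (B β) v (actK β v))
    (he : ∀ a b : SA, Dj a.1 b.1 → ∃ x : Ad, x.length = n + 1 ∧ tau (x ++ a.1) (x ++ b.1) ∈ H)
    (hc : ∃ x : Ad, x.length = n + 1 ∧ tau (x ++ [false]) (actA x ++ [false]) ∈ H) : V ≤ H := by
  have cj : ∀ {g : Perm ℤ} {a b a' b' : Ad}, g ∈ H → Dj a b → Mp g a a' → Mp g b b' →
      tau a b ∈ H → tau a' b' ∈ H := fun hg d ha hb h => by
    rw [← tau_conj d ha hb]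
    exact mul_mem (mul_mem hg h) (inv_mem hg)
  have loc : ∀ y : Ad, y.length = n + 1 → ∀ a b, Dj a b → tau (y ++ a) (y ++ b) ∈ H := by
    intro y hy a b d
    refine loc_gen H y (fun a b d => ?_) d
    obtain ⟨x, hx, h⟩ := he a b d
    exact lev_trans (n + 1) (fun y => tau (y ++ a.1) (y ++ b.1) ∈ H)
      (fun y hy h => cj hA (d.pre y) ((mA y hy).app _) ((mA y hy).app _) h)
      (fun β y hy h => cj (hB β) (d.pre y) ((mB β y hy).app _) ((mB β y hy).app _) h) x hx h y hy
  obtain ⟨x, hx, hc⟩ := hc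
  rcases x with _ | ⟨j, u⟩
  · simp at hx
  have hu : u.length = n := by simpa using hx
  have tot := lev_total n (fun y y' => y = y' ∨ (Dj y y' ∧ tau (y ++ [false]) (y' ++ [false]) ∈ H))
    (fun _ => Or.inl rfl)
    (fun y y' h => h.imp Eq.symm fun h => ⟨h.1.symm, tau_sym H (h.1.app _ _) h.2⟩) ?_ ?_ ?_ j u u hu hu
    (Or.inr ⟨dj_bool (by simp) _ _, hc⟩)
  · have long : ∀ p q : Ad, n + 2 ≤ p.length → n + 2 ≤ q.length → Dj p q → tau p q ∈ H := by
      intro p q hp hq d
      rw [← List.take_append_drop (n + 1) p, ← List.take_append_drop (n + 1) q] at d ⊢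
      have l1 : (p.take (n + 1)).length = n + 1 := by simp; omega
      have l2 : (q.take (n + 1)).length = n + 1 := by simp; omega
      have n1 : p.drop (n + 1) ≠ [] := by simp; omega
      have n2 : q.drop (n + 1) ≠ [] := by simp; omega
      rcases tot _ _ l1 l2 with e | ⟨dd, h⟩
      · rw [← e] at d ⊢
        exact loc _ l1 _ _ (dj_unpre d)
      · have h1 := half H (dd.appr _) (loc _ l1) h n1
        exact tau_sym H d.symm (half H (dd.symm.appr _) (loc _ l2) (tau_sym H (dd.app _ _) h1) n2)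
    have all : ∀ k (p q : Ad), n + 2 ≤ p.length + k → n + 2 ≤ q.length + k → Dj p q →
        tau p q ∈ H := by
      intro k
      induction k with
      | zero => exact long
      | succ k ih =>
        intro p q hp hq d
        rw [MM.spl d]
        exact mul_mem (ih _ _ (by simp; omega) (by simp; omega) (d.app _ _))
          (ih _ _ (by simp; omega) (by simp; omega) (d.app _ _))
    exact short_gen H fun a b d => all (n + 2) _ _ (by omega) (by omega) d
  · rintro x y z hx hy hz (rfl | ⟨d1, h1⟩) h2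
    · exact h2
    rcases h2 with rfl | ⟨d2, h2⟩
    · exact Or.inr ⟨d1, h1⟩
    by_cases e : x = z
    · exact Or.inl e
    have d3 := dj_len (hx.trans hz.symm) e
    exact Or.inr ⟨d3, tau_tri H (d1.app _ _) (d3.app _ _) (d2.app _ _) h1 h2⟩
  · rintro y y' hy hy' (rfl | ⟨d, h⟩)
    · exact Or.inl rfl
    · exact Or.inr ⟨(mA y hy).dj (mA y' hy') d,
        cj hA (d.app _ _) ((mA y hy).app _) ((mA y' hy').app _) h⟩
  · rintro β y y' hy hy' (rfl | ⟨d, h⟩)
    · exact Or.inl rfl
    · exact Or.inr ⟨(mB β y hy).dj (mB β y' hy') d,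
        cj (hB β) (d.app _ _) ((mB β y hy).app _) ((mB β y' hy').app _) h⟩

end Pool.Agent.H.MP_89edc2_al
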