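import Pool.Agent.H.MP_89edc2_al.B

set_option autoImplicit false

namespace Pool.Agent.H.MP_89edc2_al

open Equiv Pool.Agent.H.MP_02e21a_al

lemma wd_conj {g : Perm ℤ} {T T' : Set Ad} (hT : ∀ p ∈ T, ∃ p' ∈ T', Mp g p p') {h : Perm ℤ}
    (hh : Wd tau T h) : Wd tau T' (g * h * g⁻¹) := by
  induction hh with
  | one => simpa using Wd.one
  | mul a b x ha hb d _ ih =>
    obtain ⟨a', ha', m1⟩ := hT a ha
    obtain ⟨b', hb', m2⟩ := hT b hb
    have : g * (tau a b * x) * g⁻¹ = tau a' b' * (g * x * g⁻¹) := by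
      rw [← tau_conj d m1 m2]; group
    rw [this]
    exact Wd.mul a' b' _ ha' hb' (m1.dj m2 d) ih

lemma wd_out {T : Set Ad} {h : Perm ℤ} (hh : Wd tau T h) {n : ℤ}
    (hn : ∀ c ∈ T, ∀ k, n ≠ cone c k) : h n = n := by
  induction hh with
  | one => rfl
  | mul a b x ha hb d _ ih => rw [Perm.mul_apply, ih, (tau_ts d).2.2 n (hn a ha) (hn b hb)]

lemma wd_card {T : Set Ad} (hA : AC T) {t : ℕ} (ht : T.encard ≤ t) (t1 : 1 ≤ t) :
    {h | Wd tau T h}.encard ≤ (t ^ t : ℕ) := by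
  obtain ⟨hf, hc⟩ := Set.encard_le_coe_iff_finite_ncard_le.1 ht
  haveI : Finite T := hf
  have key : ∀ (h : {h | Wd tau T h}) (c : T), ∃ e : T, Mp h.1 c.1 e.1 := fun h c => by
    obtain ⟨e, he, m⟩ := Wd.perm MM hA h.2 c.1 c.2
    exact ⟨⟨e, he⟩, m⟩
  choose f hf' using key
  have inj : Function.Injective f := by
    intro h h' e
    ext n
    by_cases c : ∃ c ∈ T, ∃ k, n = cone c k
    · obtain ⟨c, hc, k, rfl⟩ := c
      rw [hf' h ⟨c, hc⟩ k, hf' h' ⟨c, hc⟩ k, e]
    · push Not at c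
      rw [wd_out h.2 c, wd_out h'.2 c]
  have fin : Finite {h | Wd tau T h} := Finite.of_injective f inj
  refine Set.encard_le_coe_iff_finite_ncard_le.2 ⟨fin, ?_⟩
  have := Nat.card_le_card_of_injective f inj
  rw [Nat.card_fun] at this
  refine le_trans this ?_
  have e : Nat.card T ≤ t := hc
  exact (Nat.pow_le_pow_left e _).trans (Nat.pow_le_pow_right t1 e)

variable {ι : Type} [DecidableEq ι]

omit [DecidableEq ι] in
lemma len_ev (w : Wr ι) (y : Ad) : (ev w y).length = y.length := by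
  have : ∀ l : List (Syl ι), (evL l y).length = y.length := fun l => by
    induction l with
    | nil => rfl
    | cons s l ih => simp [evL, ih]
  simp [ev, this]

def TT (Z : ι → Set Ad) (al be : ι → Ad) (w : Wr ι) : Set Ad :=
  {p | ∃ i y, y ∈ Or Z w i ∧ (p = y ++ al i ∨ p = y ++ be i)}

def Gd (Z : ι → Set Ad) (n : ℕ) (mu : ι → ℕ) (w : Wr ι) (c : ℕ) : Prop :=
  ∀ i y, y ∈ Or Z w i → y.length = n ∧ mu i ≤ y.count false + c ∧ y.count false ≤ mu i + 2 + c

def pushE (i : ι) (w : Wr ι) : Wr ι :=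
  mulS ((false, false), {i}) (pushA (mulS ((false, false), {i}) (pushA w)))

lemma ev_pushE (i : ι) (w : Wr ι) (y : Ad) : ev (pushE i w) y = ev w y := by
  simp [pushE, ev_mulS, ev_pushA]

lemma nm_pushE (i : ι) (w : Wr ι) : nm (pushE i w) ≤ 10 + nm w := by
  have h1 := nm_mulS ((false, false), {i}) (pushA (mulS ((false, false), {i}) (pushA w)))
  have h2 := nm_mulS ((false, false), {i}) (pushA w)
  have h3 := nm_pushA w
  have h4 := nm_pushA (mulS ((false, false), {i}) (pushA w))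
  simp only [wt, Bool.false_eq_true, if_false] at h1 h2
  unfold pushE
  omega

lemma or_pushE {Z : ι → Set Ad} (hZ : Inv Z) (i : ι) (w : Wr ι) (j : ι) (y : Ad) :
    y ∈ Or Z (pushE i w) j ↔ y ∈ Or Z w j ∨ (j = i ∧ (actA y ∈ Z j ∨ y ∈ Z j)) := by
  simp only [pushE, or_mulS hZ, or_pushA, Set.mem_union, mem_imA, actK_one, actA_actA, ZU,
    Set.mem_setOf_eq, Finset.mem_singleton, Set.image_id']
  tauto

lemma decomp_word {Z : ι → Set Ad} (hZ : Inv Z) {n : ℕ} {mu : ι → ℕ} {al be : ι → Ad}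
    (hz : ∀ i y, y ∈ Z i → y.length = n ∧ mu i + 1 ≤ y.count false ∧ y.count false ≤ mu i + 2)
    {A : Perm ℤ} {B : K4 → Perm ℤ} {e : ι → Perm ℤ}
    (mA : ∀ v : Ad, v.length = n → Mp A v (actA v))
    (mB : ∀ β (v : Ad), v.length = n → Mp (B β) v (actK β v))
    (he : ∀ i, ∃ x x', x ∈ Z i ∧ (actA x' ∈ Z i ∨ x' ∈ Z i) ∧ Dj (x ++ al i) (x' ++ be i) ∧
      e i = tau (x ++ al i) (x' ++ be i)) (l : List (Perm ℤ)) :
    (∀ x ∈ l, x = A ∨ (∃ β, x = B β) ∨ ∃ i, x = e i) → ∃ (w : Wr ι) (h γ : Perm ℤ),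
      nm w ≤ 10 * l.length ∧ Gd Z n mu w l.length ∧ Wd tau (TT Z al be w) h ∧
        (∀ v : Ad, v.length = n → Mp γ v (ev w v)) ∧ l.prod = h * γ := by
  induction l with
  | nil =>
    intro _
    refine ⟨w1, 1, 1, by simp [nm, w1, nmL, wt], fun i y hy => ?_, Wd.one, fun v _ => ?_, by simp⟩
    · simp [or_w1] at hy
    · rw [ev_w1]; exact Mp.one v
  | cons s l ih =>
    intro hl
    obtain ⟨w, h, γ, h1, h2, h3, h4, h5⟩ := ih fun x hx => hl x (List.mem_cons_of_mem _ hx)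
    rcases hl s List.mem_cons_self with rfl | ⟨β, rfl⟩ | ⟨i, rfl⟩
    · refine ⟨pushA w, s * h * s⁻¹, s * γ, ?_, fun i y hy => ?_, wd_conj ?_ h3, fun v hv => ?_, ?_⟩
      · rw [nm_pushA, List.length_cons]; omega
      · rw [or_pushA] at hy
        obtain ⟨x, hx, rfl⟩ := hy
        have := h2 i x hx
        have := cz_actA x
        simp only [len_actA, List.length_cons]
        omega
      · rintro _ ⟨i, y, hy, rfl | rfl⟩
        · exact ⟨_, ⟨i, actA y, by rw [or_pushA]; exact ⟨y, hy, rfl⟩, Or.inl rfl⟩,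
            (mA y (h2 i y hy).1).app _⟩
        · exact ⟨_, ⟨i, actA y, by rw [or_pushA]; exact ⟨y, hy, rfl⟩, Or.inr rfl⟩,
            (mA y (h2 i y hy).1).app _⟩
      · rw [ev_pushA]
        exact (mA _ (by rw [len_ev, hv])).mul (h4 v hv)
      · rw [List.prod_cons, h5]; group
    · have eo : ∀ i, Or Z (mulS (β, ∅) w) i = actK β '' Or Z w i := fun i => by
        rw [or_mulS hZ]; simp [ZU]
      refine ⟨mulS (β, ∅) w, B β * h * (B β)⁻¹, B β * γ, ?_, fun i y hy => ?_, wd_conj ?_ h3,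
        fun v hv => ?_, ?_⟩
      · have := nm_mulS (β, ∅) w
        have : wt β ≤ 6 := by unfold wt; split_ifs <;> omega
        simp only [List.length_cons] at *; omega
      · rw [eo] at hy
        obtain ⟨x, hx, rfl⟩ := hy
        have := h2 i x hx
        have := cz_actK x β
        simp only [len_actK, List.length_cons]
        omega
      · rintro _ ⟨i, y, hy, rfl | rfl⟩
        · exact ⟨_, ⟨i, actK β y, by rw [eo]; exact ⟨y, hy, rfl⟩, Or.inl rfl⟩,
            (mB β y (h2 i y hy).1).app _⟩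
        · exact ⟨_, ⟨i, actK β y, by rw [eo]; exact ⟨y, hy, rfl⟩, Or.inr rfl⟩,
            (mB β y (h2 i y hy).1).app _⟩
      · rw [ev_mulS]
        exact (mB β _ (by rw [len_ev, hv])).mul (h4 v hv)
      · rw [List.prod_cons, h5]; group
    · obtain ⟨x, x', hx, hx', d, ee⟩ := he i
      refine ⟨pushE i w, e i * h, γ, ?_, fun j y hy => ?_, ?_, fun v hv => ?_, ?_⟩
      · have := nm_pushE i w
        simp only [List.length_cons]; omega
      · simp only [List.length_cons]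
        rcases (or_pushE hZ i w j y).1 hy with hy | ⟨-, hy | hy⟩
        · have := h2 j y hy; omega
        · have := hz j _ hy
          have := cz_actA y
          simp only [len_actA] at *
          omega
        · have := hz j _ hy; omega
      · rw [ee]
        refine Wd.mul _ _ _ ⟨i, x, (or_pushE hZ i w i x).2 (Or.inr ⟨rfl, Or.inr hx⟩), Or.inl rfl⟩
          ⟨i, x', (or_pushE hZ i w i x').2 (Or.inr ⟨rfl, hx'⟩), Or.inr rfl⟩ d (h3.mono ?_)
        rintro p ⟨j, y, hy, hp⟩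
        exact ⟨j, y, (or_pushE hZ i w j y).2 (Or.inl hy), hp⟩
      · rw [ev_pushE]; exact h4 v hv
      · rw [List.prod_cons, h5, mul_assoc]

omit [DecidableEq ι] in
lemma tt_ac {Z : ι → Set Ad} {n c : ℕ} {mu : ι → ℕ} {al be : ι → Ad} {w : Wr ι}
    (hab : ∀ i, al i = be i ∨ Dj (al i) (be i))
    (hmu : ∀ i j, i ≠ j → mu i + 2 + 2 * c < mu j ∨ mu j + 2 + 2 * c < mu i)
    (h : Gd Z n mu w c) : AC (TT Z al be w) := by
  rintro p ⟨i, y, hy, hp⟩ q ⟨j, y', hy', hq⟩ hne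
  have h1 := h i y hy
  have h2 := h j y' hy'
  by_cases e : y = y'
  · subst e
    have : i = j := by
      by_contra c
      have := hmu i j c
      omega
    subst this
    rcases hab i with e | d
    · exfalso
      apply hne
      rcases hp with rfl | rfl <;> rcases hq with rfl | rfl <;> simp [e]
    · rcases hp with rfl | rfl <;> rcases hq with rfl | rfl
      · exact absurd rfl hne
      · exact d.pre y
      · exact d.symm.pre y
      · exact absurd rfl hne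
  · have d := dj_len (h1.1.trans h2.1.symm) e
    rcases hp with rfl | rfl <;> rcases hq with rfl | rfl <;> exact d.app _ _

lemma tt_card [Fintype ι] (z : ι → Ad) (m : ℕ) (al be : ι → Ad) (w : Wr ι) {L : ℕ}
    (hL : (enc m w).length ≤ L) :
    (TT (Zs z m) al be w).encard ≤ (Fintype.card ι * (4 * L) : ℕ) := by
  have : TT (Zs z m) al be w ⊆ ⋃ i, ((· ++ al i) '' Or (Zs z m) w i ∪ (· ++ be i) '' Or (Zs z m) w i) := by
    rintro p ⟨i, y, hy, rfl | rfl⟩
    · exact Set.mem_iUnion.2 ⟨i, Or.inl ⟨y, hy, rfl⟩⟩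
    · exact Set.mem_iUnion.2 ⟨i, Or.inr ⟨y, hy, rfl⟩⟩
  refine (Set.encard_le_encard this).trans ((Set.encard_iUnion_le_of_fintype _).trans ?_)
  refine (Finset.sum_le_card_nsmul _ _ ((4 * L : ℕ) : ℕ∞) fun i _ => ?_).trans ?_
  · refine (Set.encard_union_le _ _).trans ?_
    refine (add_le_add ((Set.encard_image_le _ _).trans (or_card z i m w))
      ((Set.encard_image_le _ _).trans (or_card z i m w))).trans ?_
    norm_cast; omega
  · simp

theorem ball_card [Fintype ι] (z : ι → Ad) (m : ℕ) {n k L : ℕ} {mu : ι → ℕ} {al be : ι → Ad}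
    (hz : ∀ i y, y ∈ Zs z m i → y.length = n ∧ mu i + 1 ≤ y.count false ∧ y.count false ≤ mu i + 2)
    {A : Perm ℤ} {B : K4 → Perm ℤ} {e : ι → Perm ℤ}
    (mA : ∀ v : Ad, v.length = n → Mp A v (actA v))
    (mB : ∀ β (v : Ad), v.length = n → Mp (B β) v (actK β v))
    (he : ∀ i, ∃ x x', x ∈ Zs z m i ∧ (actA x' ∈ Zs z m i ∨ x' ∈ Zs z m i) ∧
      Dj (x ++ al i) (x' ++ be i) ∧ e i = tau (x ++ al i) (x' ++ be i))
    (hab : ∀ i, al i = be i ∨ Dj (al i) (be i))
    (hmu : ∀ i j, i ≠ j → mu i + 2 + 2 * k < mu j ∨ mu j + 2 + 2 * k < mu i)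
    (hL : ∀ a : ℕ, 7 ^ m * a ≤ 6 ^ m * (10 * k) + 37 * 15 ^ m → a ≤ L)
    (t1 : 1 ≤ Fintype.card ι * (4 * L)) :
    {g | ∃ l : List (Perm ℤ), l.length ≤ k ∧
      (∀ x ∈ l, x = A ∨ (∃ β, x = B β) ∨ ∃ i, x = e i) ∧ l.prod = g}.encard ≤
      (Fintype.card (Syl ι × Bool) ^ L *
        (Fintype.card ι * (4 * L)) ^ (Fintype.card ι * (4 * L)) : ℕ) := by
  let F : List.Vector (Syl ι × Bool) L → Set (Perm ℤ) := fun c =>
    {g | ∃ (w : Wr ι) (t : List (Syl ι × Bool)) (h γ : Perm ℤ), enc m w ++ t = c.1 ∧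
      Gd (Zs z m) n mu w k ∧ Wd tau (TT (Zs z m) al be w) h ∧
        (∀ v : Ad, v.length = n → Mp γ v (ev w v)) ∧ g = h * γ}
  have sub : {g | ∃ l : List (Perm ℤ), l.length ≤ k ∧
      (∀ x ∈ l, x = A ∨ (∃ β, x = B β) ∨ ∃ i, x = e i) ∧ l.prod = g} ⊆ ⋃ c, F c := by
    rintro _ ⟨l, hl, hs, rfl⟩
    obtain ⟨w, h, γ, h1, h2, h3, h4, h5⟩ := decomp_word (Zs_inv z m) hz mA mB he l hs
    have hle : (enc m w).length ≤ L := hL _ ((enc_len m w).trans (by
      have : 6 ^ m * nm w ≤ 6 ^ m * (10 * k) := Nat.mul_le_mul_left _ (by omega)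
      omega))
    refine Set.mem_iUnion.2 ⟨⟨enc m w ++ List.replicate (L - (enc m w).length)
      (((false, false), ∅), false), by simp; omega⟩, w, _, h, γ, rfl, fun i y hy => ?_, h3, h4, h5⟩
    have := h2 i y hy
    omega
  refine (Set.encard_le_encard sub).trans ((Set.encard_iUnion_le_of_fintype _).trans ?_)
  refine (Finset.sum_le_card_nsmul _ _
    (((Fintype.card ι * (4 * L)) ^ (Fintype.card ι * (4 * L)) : ℕ) : ℕ∞) fun c _ => ?_).trans ?_
  · rcases (F c).eq_empty_or_nonempty with h0 | ⟨-, w0, t0, -, γ0, e0, g0, -, m0, -⟩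
    · rw [h0]; simp
    have : F c ⊆ (· * γ0) '' {h | Wd tau (TT (Zs z m) al be w0) h} := by
      rintro _ ⟨w, t, h, γ, e1, -, h3, h4, rfl⟩
      obtain ⟨⟨s1, s2⟩, -⟩ := enc_inj z m w w0 t t0 (e1.trans e0.symm)
      have eT : TT (Zs z m) al be w = TT (Zs z m) al be w0 := by simp only [TT, s2]
      have eγ : γ = γ0 := lev_ext h4 fun v hv => by rw [s1]; exact m0 v hv
      exact ⟨h, eT ▸ h3, by rw [eγ]⟩
    refine (Set.encard_le_encard this).trans ((Set.encard_image_le _ _).trans ?_)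
    refine wd_card (tt_ac hab hmu g0) (tt_card z m al be w0 ?_) t1
    rw [← c.2, ← e0, List.length_append]
    omega
  · rw [Finset.card_univ, card_vector]
    simp

end Pool.Agent.H.MP_89edc2_al
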