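import Pool.Agent.H.MP_89edc2_al.C

set_option autoImplicit false

namespace Pool.Agent.H.MP_89edc2_al

open Equiv Pool.Agent.H.MP_02e21a_al

lemma ex_m (K : ℕ) : ∃ m : ℕ, 1 ≤ m ∧ K * m * 6 ^ m < 7 ^ m := by
  have h := tendsto_self_mul_const_pow_of_lt_one (r := 6 / 7) (by norm_num) (by norm_num)
  have h2 := h.eventually (gt_mem_nhds (show (0 : ℝ) < 1 / (K + 1) by positivity))
  obtain ⟨m, hm, h1⟩ := (h2.and (Filter.eventually_ge_atTop 1)).exists
  refine ⟨m, h1, ?_⟩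
  rw [div_pow, lt_div_iff₀ (by positivity), mul_div_assoc', div_mul_eq_mul_div,
    div_lt_one (by positivity)] at hm
  have : ((K * m * 6 ^ m : ℕ) : ℝ) < (7 ^ m : ℕ) := by
    push_cast
    have : (0 : ℝ) ≤ m * 6 ^ m := by positivity
    nlinarith
  exact_mod_cast this

lemma numer {c : ℝ} (hc : 1 < c) (r q : ℕ) : ∃ m L : ℕ,
    (∀ a : ℕ, 7 ^ m * a ≤ 6 ^ m * (10 * 3 ^ m) + 37 * 15 ^ m → a ≤ L) ∧ 1 ≤ L ∧
      ((q ^ L * (r * (4 * L)) ^ (r * (4 * L)) : ℕ) : ℝ) < c ^ (3 ^ m) := by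
  obtain ⟨N, hN⟩ := pow_unbounded_of_one_lt 2 hc
  obtain ⟨m, m1, hm⟩ := ex_m (N * 47 * (q + 4 * r * (r + 8) + 8 * r))
  have a1 : 15 ^ m ≤ 6 ^ m * 3 ^ m := by
    rw [← mul_pow]; exact Nat.pow_le_pow_left (by omega) m
  have a2 : 7 ^ m ≤ 15 ^ m := Nat.pow_le_pow_left (by omega) m
  have a3 : 6 ^ m ≤ 7 ^ m := Nat.pow_le_pow_left (by omega) m
  have a4 : 3 ^ m ≤ 2 ^ (2 * m) := by
    rw [pow_mul]; exact Nat.pow_le_pow_left (by omega) m
  have p7 : 0 < 7 ^ m := by positivity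
  have hL : ∀ a : ℕ, 7 ^ m * a ≤ 6 ^ m * (10 * 3 ^ m) + 37 * 15 ^ m →
      a ≤ 47 * (6 ^ m * 3 ^ m) / 7 ^ m := fun a h => by
    rw [Nat.le_div_iff_mul_le p7]
    nlinarith
  refine ⟨m, 47 * (6 ^ m * 3 ^ m) / 7 ^ m, hL, hL 1 (by omega), ?_⟩
  have b1 : 47 * (6 ^ m * 3 ^ m) / 7 ^ m * 7 ^ m ≤ 47 * (6 ^ m * 3 ^ m) := Nat.div_mul_le_self _ _
  generalize 47 * (6 ^ m * 3 ^ m) / 7 ^ m = L at b1
  have b2 : L ≤ 47 * 3 ^ m := by
    refine Nat.le_of_mul_le_mul_right (b1.trans ?_) p7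
    have := Nat.mul_le_mul_right (3 ^ m) a3
    nlinarith
  have b3 : r * (4 * L) ≤ 2 ^ (r + 8 + 2 * m) := by
    rw [pow_add, pow_add, mul_assoc]
    exact Nat.mul_le_mul Nat.lt_two_pow_self.le (by omega)
  have b4 : q ^ L * (r * (4 * L)) ^ (r * (4 * L)) ≤
      2 ^ (q * L + (r + 8 + 2 * m) * (r * (4 * L))) := by
    rw [pow_add, pow_mul 2 q, pow_mul 2 (r + 8 + 2 * m)]
    exact Nat.mul_le_mul (Nat.pow_le_pow_left Nat.lt_two_pow_self.le _) (Nat.pow_le_pow_left b3 _)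
  have b5 : q * L + (r + 8 + 2 * m) * (r * (4 * L)) ≤ L * (m * (q + 4 * r * (r + 8) + 8 * r)) := by
    have h1 : q * L ≤ m * (q * L) := Nat.le_mul_of_pos_left _ m1
    have h2 : (r + 8) * (r * (4 * L)) ≤ m * ((r + 8) * (r * (4 * L))) := Nat.le_mul_of_pos_left _ m1
    nlinarith
  generalize q * L + (r + 8 + 2 * m) * (r * (4 * L)) = E at b4 b5
  have b6 : N * E < 3 ^ m := by
    refine Nat.lt_of_mul_lt_mul_right (a := 7 ^ m) ?_
    generalize q + 4 * r * (r + 8) + 8 * r = C at *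
    calc N * E * 7 ^ m ≤ N * (L * (m * C)) * 7 ^ m := by gcongr
      _ = N * (m * C) * (L * 7 ^ m) := by ring
      _ ≤ N * (m * C) * (47 * (6 ^ m * 3 ^ m)) := by gcongr
      _ = 3 ^ m * (N * 47 * C * m * 6 ^ m) := by ring
      _ < 3 ^ m * 7 ^ m := by gcongr
  calc ((q ^ L * (r * (4 * L)) ^ (r * (4 * L)) : ℕ) : ℝ) ≤ ((2 ^ E : ℕ) : ℝ) := by exact_mod_cast b4
    _ ≤ (c ^ N) ^ E := by push_cast; gcongr
    _ < c ^ (3 ^ m) := by rw [← pow_mul]; exact pow_lt_pow_right₀ hc b6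

def Ball {G : Type} [Group G] (S : Finset G) (k : ℕ) : Set G :=
  {g : G | ∃ l : List G, l.length ≤ k ∧ (∀ x ∈ l, x ∈ S ∨ x⁻¹ ∈ S) ∧ l.prod = g}

lemma ball_fin {G : Type} [Group G] (S : Finset G) (k : ℕ) : (Ball S k).Finite := by
  induction k with
  | zero =>
    refine (Set.finite_singleton 1).subset ?_
    rintro _ ⟨l, hl, -, rfl⟩
    rw [List.length_eq_zero_iff.1 (Nat.le_zero.1 hl)]; rfl
  | succ k ih =>
    refine (((S.finite_toSet.union S.finite_toSet.inv).image2 (· * ·) ih).insert 1).subset ?_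
    rintro _ ⟨l, hl, hs, rfl⟩
    rcases l with _ | ⟨x, l⟩
    · exact Or.inl rfl
    · exact Or.inr ⟨x, hs x List.mem_cons_self, l.prod,
        ⟨l, by simpa using hl, fun y hy => hs y (List.mem_cons_of_mem _ hy), rfl⟩, by simp⟩

theorem small {c : ℝ} (hc : 1 < c) : ∃ S : Finset V, Subgroup.closure (S : Set V) = ⊤ ∧
    ∃ k : ℕ, ((Ball S k).ncard : ℝ) < c ^ k := by
  classical
  haveI : Fintype (Option (SA × SA)) := Fintype.ofFinite _
  obtain ⟨m, L, hL, L1, hn⟩ := numer hc (Fintype.card (Option (SA × SA)))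
    (Fintype.card (Syl (Option (SA × SA)) × Bool))
  obtain ⟨r, nu, hr, hnu⟩ : ∃ (r : ℕ) (nu : Option (SA × SA) → ℕ), (∀ i, nu i ≤ r) ∧
      Function.Injective nu := ⟨_, fun i => Fintype.equivFin _ i, fun i => (Fin.is_lt _).le,
        fun i j h => (Fintype.equivFin _).injective (Fin.ext h)⟩
  obtain ⟨D, hD⟩ : ∃ D, D = 2 * 3 ^ m + 3 := ⟨_, rfl⟩
  let z : Option (SA × SA) → Ad := fun i =>
    List.replicate (nu i * D) false ++ List.replicate ((r - nu i) * D) true
  have hz : ∀ i y, y ∈ Zs z m i → y.length = m + 1 + r * D + 1 ∧ nu i * D + 1 ≤ y.count false ∧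
      y.count false ≤ nu i * D + 2 := by
    rintro i _ ⟨j, rfl⟩
    have : nu i * D + (r - nu i) * D = r * D := by rw [← add_mul, Nat.add_sub_cancel' (hr i)]
    cases j <;> simp [z, List.count_replicate] <;> omega
  obtain ⟨A, A1, A2, mA⟩ := ex_lev (m + 1 + r * D + 1) actA actA_actA len_actA
  choose B B1 B2 mB using fun β =>
    ex_lev (m + 1 + r * D + 1) (actK β) (actK_actK β) fun v => len_actK v β
  let x : Option (SA × SA) → Ad := fun i => List.replicate m true ++ false :: false :: z i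
  have hx : ∀ i, x i ∈ Zs z m i := fun i => ⟨false, rfl⟩
  have dx : ∀ i, Dj (x i) (actA (x i)) := fun i => by
    have := (hz i _ (hx i)).1
    rcases h : x i with _ | ⟨j, u⟩
    · rw [h] at this; simp at this
    · exact dj_bool (by simp) _ _
  obtain ⟨al, be, x', h1, h2, h3, h4, h5⟩ : ∃ al be x' : Option (SA × SA) → Ad,
      (∀ i, al i = be i ∨ Dj (al i) (be i)) ∧ (∀ i, actA (x' i) ∈ Zs z m i ∨ x' i ∈ Zs z m i) ∧
      (∀ i, Dj (x i ++ al i) (x' i ++ be i)) ∧
      (∀ a b : SA, Dj a.1 b.1 → al (some (a, b)) = a.1 ∧ be (some (a, b)) = b.1 ∧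
        x' (some (a, b)) = x (some (a, b))) ∧
      al none = [false] ∧ be none = [false] ∧ x' none = actA (x none) := by
    have : ∀ i : Option (SA × SA), ∃ al be x' : Ad, (al = be ∨ Dj al be) ∧
        (actA x' ∈ Zs z m i ∨ x' ∈ Zs z m i) ∧ Dj (x i ++ al) (x' ++ be) ∧
        (∀ a b : SA, Dj a.1 b.1 → i = some (a, b) → al = a.1 ∧ be = b.1 ∧ x' = x i) ∧
        (i = none → al = [false] ∧ be = [false] ∧ x' = actA (x i)) := by
      intro i
      by_cases h : ∃ a b : SA, Dj a.1 b.1 ∧ i = some (a, b)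
      · obtain ⟨a, b, d, rfl⟩ := h
        refine ⟨a.1, b.1, x _, Or.inr d, Or.inr (hx _), d.pre _, fun a' b' _ e => ?_, fun e => ?_⟩
        · simp only [Option.some.injEq, Prod.mk.injEq] at e
          simp [e.1, e.2]
        · simp at e
      · exact ⟨[false], [false], actA (x i), Or.inl rfl, Or.inl (by simpa using hx i),
          (dx i).app _ _, fun a b d e => absurd ⟨a, b, d, e⟩ h, fun _ => ⟨rfl, rfl, rfl⟩⟩
    choose al be x' k1 k2 k3 k4 k5 using this
    exact ⟨al, be, x', k1, k2, k3, fun a b d => k4 _ a b d rfl, k5 _ rfl⟩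
  let e : Option (SA × SA) → Perm ℤ := fun i => tau (x i ++ al i) (x' i ++ be i)
  have key := ball_card z m (k := 3 ^ m) (L := L) (mu := fun i => nu i * D) (e := e) hz mA mB
    (fun i => ⟨x i, x' i, hx i, h2 i, h3 i, rfl⟩) h1 (fun i j hij => by
      rcases lt_or_gt_of_ne (hnu.ne hij) with h | h
      · left
        have := Nat.mul_le_mul_right D (Nat.succ_le_of_lt h)
        rw [Nat.succ_mul] at this
        omega
      · right
        have := Nat.mul_le_mul_right D (Nat.succ_le_of_lt h)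
        rw [Nat.succ_mul] at this
        omega) hL (Nat.mul_pos Fintype.card_pos (by omega))
  let S : Finset V := insert ⟨A, A1⟩ (Finset.univ.image (fun β => (⟨B β, B1 β⟩ : V)) ∪
    Finset.univ.image fun i => (⟨e i, tau_mem _ _⟩ : V))
  have hS : ∀ g : V, g ∈ S ↔ g.1 = A ∨ (∃ β, g.1 = B β) ∨ ∃ i, g.1 = e i := fun g => by
    simp only [S, Finset.mem_insert, Finset.mem_union, Finset.mem_image, Finset.mem_univ, true_and,
      Subtype.ext_iff, @eq_comm _ g.1]
  refine ⟨S, ?_, 3 ^ m, ?_⟩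
  · have mem : ∀ g : V, g ∈ S → g.1 ∈ (Subgroup.closure (S : Set V)).map V.subtype := fun g hg =>
      ⟨g, Subgroup.subset_closure hg, rfl⟩
    have me : ∀ i, e i ∈ (Subgroup.closure (S : Set V)).map V.subtype := fun i =>
      mem ⟨e i, tau_mem _ _⟩ ((hS _).2 (Or.inr (Or.inr ⟨i, rfl⟩)))
    have := gen_all ((Subgroup.closure (S : Set V)).map V.subtype) (m + 1 + r * D) A B
      (mem ⟨A, A1⟩ ((hS _).2 (Or.inl rfl)))
      (fun β => mem ⟨B β, B1 β⟩ ((hS _).2 (Or.inr (Or.inl ⟨β, rfl⟩)))) mA mB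
      (fun a b d => ⟨x (some (a, b)), (hz _ _ (hx _)).1, by
        have := me (some (a, b))
        simp only [e] at this
        rwa [(h4 a b d).1, (h4 a b d).2.1, (h4 a b d).2.2] at this⟩)
      ⟨x none, (hz _ _ (hx _)).1, by
        have := me none
        simp only [e] at this
        rwa [h5.1, h5.2.1, h5.2.2] at this⟩
    rw [eq_top_iff]
    intro g _
    obtain ⟨g', hg, e'⟩ := this g.2
    rwa [← Subtype.ext (a1 := g') (a2 := g) e']
  · refine lt_of_le_of_lt ?_ hn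
    rw [← Set.ncard_image_of_injective _ Subtype.val_injective, Nat.cast_le]
    refine (Set.encard_le_coe_iff_finite_ncard_le.1 ((Set.encard_le_encard ?_).trans key)).2
    rintro _ ⟨_, ⟨l, hl, hs, rfl⟩, rfl⟩
    refine ⟨l.map V.subtype, by simpa using hl, fun y hy => ?_, (map_list_prod V.subtype l).symm⟩
    obtain ⟨g, hg, rfl⟩ := List.mem_map.1 hy
    rcases hs g hg with h | h
    · exact (hS g).1 h
    · rcases (hS _).1 h with h | ⟨β, h⟩ | ⟨i, h⟩
      · exact Or.inl (by rw [← A2, ← h]; simp)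
      · exact Or.inr (Or.inl ⟨β, by rw [← B2, ← h]; simp⟩)
      · refine Or.inr (Or.inr ⟨i, ?_⟩)
        have : (e i)⁻¹ = e i := MM.tinv (h3 i)
        rw [← this, ← h]; simp

theorem big : ∃ S : Finset V, Subgroup.closure (S : Set V) = ⊤ ∧
    ∀ k : ℕ, 2 ^ k ≤ (Ball S k).ncard := by
  classical
  obtain ⟨S, hS, -⟩ := small (c := 2) (by norm_num)
  let p : Bool → V := fun b => ⟨tau [true] [false, b] * tau [false] [true],
    mul_mem (tau_mem _ _) (tau_mem _ _)⟩
  have mp : ∀ b, Mp (p b).1 [false] [false, b] := fun b =>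
    (tau_ts (dj_bool (by simp) _ _)).l.mul (tau_ts (dj_bool (by simp) _ _)).l
  have mw : ∀ w : List Bool, Mp ((w.map p).prod).1 [false] (false :: w) := fun w => by
    induction w with
    | nil => exact Mp.one _
    | cons b w ih =>
      rw [List.map_cons, List.prod_cons]
      exact ((mp b).app w).mul ih
  refine ⟨S ∪ Finset.univ.image p, ?_, fun k => ?_⟩
  · rw [eq_top_iff, ← hS]
    exact Subgroup.closure_mono (Finset.coe_subset.2 Finset.subset_union_left)
  · let f : List.Vector Bool k → V := fun w => (w.1.map p).prod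
    have inj : Function.Injective f := fun w w' h => by
      have h1 := mw w.1
      have h2 := mw w'.1
      simp only [f] at h
      rw [h] at h1
      exact Subtype.ext (List.cons.inj (h1.uniq h2)).2
    have sub : Set.range f ⊆ Ball (S ∪ Finset.univ.image p) k := by
      rintro _ ⟨w, rfl⟩
      refine ⟨w.1.map p, by simp [w.2], fun x hx => Or.inl ?_, rfl⟩
      obtain ⟨b, -, rfl⟩ := List.mem_map.1 hx
      exact Finset.mem_union_right _ (Finset.mem_image_of_mem _ (Finset.mem_univ _))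
    refine le_trans ?_ (Set.ncard_le_ncard sub (ball_fin _ _))
    rw [Set.ncard_range_of_injective inj]
    simp

theorem pres : ∃ (n : ℕ) (rels : Finset (FreeGroup (Fin n))),
    Nonempty (V ≃* PresentedGroup (rels : Set (FreeGroup (Fin n)))) := by
  obtain ⟨n, φ, hφ, R, hR⟩ := main ∅ (by simp)
  exact ⟨n, R, ⟨(QuotientGroup.quotientKerEquivOfSurjective φ hφ).symm.trans
    (QuotientGroup.quotientMulEquivOfEq hR)⟩⟩

end Pool.Agent.H.MP_89edc2_al
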